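import Pool.Agent.H654R5.PT.Stm

/-!
# Truth-table reductions to the random strings: the code is computable in polynomial time
-/

namespace Pool.Agent.H654R5.PT.PCO

open Pool.Agent.NPC

variable {α β : Type} [TEnc α] [TEnc β]

theorem take_poly {l : α → List β} {n : α → ℕ} (hl : NPC.Poly l) (hn : NPC.Poly n) :
    NPC.Poly (fun a => (l a).take (n a)) := by
  have h1 : NPC.Poly (fun a => ((l a).zipIdx.filter (fun p => decide (p.2 < n a))).map Prod.fst) :=
    NPC.Poly.map (F := fun _ (p : β × ℕ) => p.1)
      (NPC.Poly.filter (p := fun a (p : β × ℕ) => decide (p.2 < n a)) (NPC.Poly.zipIdx hl)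
        (NPC.Poly.decide_lt (NPC.Poly.snd (NPC.Poly.snd NPC.Poly.id)) (hn.comp (NPC.Poly.fst NPC.Poly.id))))
      (NPC.Poly.fst (NPC.Poly.snd NPC.Poly.id))
  refine h1.congr fun a => ?_
  have key : ∀ (l : List β) (n k : ℕ),
      ((l.zipIdx k).filter (fun p => decide (p.2 < n + k))).map Prod.fst = l.take n := by
    intro l
    induction l with
    | nil => intro n k; simp
    | cons b l ih =>
      intro n k
      cases n with
      | zero =>
        simp only [List.take_zero, List.map_eq_nil_iff, List.filter_eq_nil_iff, decide_eq_true_eq]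
        intro p hp
        have := List.le_snd_of_mem_zipIdx hp
        omega
      | succ n =>
        have := ih n (k + 1)
        rw [List.zipIdx_cons, List.filter_cons]
        have hlt : k < n + 1 + k := by omega
        simp only [hlt, decide_true, if_true, List.map_cons, List.take_succ_cons]
        rw [← this]
        congr 3
        funext p
        simp only [decide_eq_decide]
        omega
  simpa using key (l a) (n a) 0

theorem drop_poly {l : α → List β} {n : α → ℕ} (hl : NPC.Poly l) (hn : NPC.Poly n) :
    NPC.Poly (fun a => (l a).drop (n a)) := by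
  have h1 : NPC.Poly (fun a => ((l a).zipIdx.filter (fun p => decide (n a ≤ p.2))).map Prod.fst) :=
    NPC.Poly.map (F := fun _ (p : β × ℕ) => p.1)
      (NPC.Poly.filter (p := fun a (p : β × ℕ) => decide (n a ≤ p.2)) (NPC.Poly.zipIdx hl)
        (NPC.Poly.decide_le (hn.comp (NPC.Poly.fst NPC.Poly.id)) (NPC.Poly.snd (NPC.Poly.snd NPC.Poly.id))))
      (NPC.Poly.fst (NPC.Poly.snd NPC.Poly.id))
  refine h1.congr fun a => ?_
  have key : ∀ (l : List β) (n k : ℕ),
      ((l.zipIdx k).filter (fun p => decide (n + k ≤ p.2))).map Prod.fst = l.drop n := by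
    intro l
    induction l with
    | nil => intro n k; simp
    | cons b l ih =>
      intro n k
      cases n with
      | zero =>
        rw [List.filter_eq_self.2]
        · simp
        · intro p hp
          have := List.le_snd_of_mem_zipIdx hp
          simp only [decide_eq_true_eq]
          omega
      | succ n =>
        have := ih n (k + 1)
        rw [List.zipIdx_cons, List.filter_cons]
        have hlt : ¬ (n + 1 + k ≤ k) := by omega
        simp only [hlt, decide_false, Bool.false_eq_true, if_false, List.drop_succ_cons]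
        rw [← this]
        congr 2
        funext p
        simp only [decide_eq_decide]
        omega
  simpa using key (l a) (n a) 0

theorem testBit_poly {u i : α → ℕ} (hu : NPC.Poly u) (hi : NPC.Poly i) :
    NPC.Poly (fun a => (u a).testBit (i a)) := by
  refine (NPC.Poly.getD (l := fun a => (u a).bits) (n := i) (d := fun _ => false) hu.natBits hi
    (NPC.Poly.const false)).congr fun a => ?_
  rw [Nat.testBit_eq_inth]; rfl

theorem dot_poly {u : α → ℕ} {l : α → List Bool} (hu : NPC.Poly u) (hl : NPC.Poly l) :
    NPC.Poly (fun a => dot (u a) (l a)) := by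
  unfold dot
  refine NPC.Poly.foldr (l := fun a => List.range (l a).length) (s := fun _ => false)
    (F := fun a i acc => xor ((u a).testBit i && (l a).getD i false) acc)
    (NPC.Poly.range_length hl) (NPC.Poly.const false) ?_ (Polynomial.C 3) ?_
  · exact NPC.Poly.xor (NPC.Poly.and (testBit_poly (hu.comp (NPC.Poly.fst NPC.Poly.id))
      (NPC.Poly.fst (NPC.Poly.snd NPC.Poly.id)))
      (NPC.Poly.getD (d := fun _ => false) (hl.comp (NPC.Poly.fst NPC.Poly.id)) (NPC.Poly.fst (NPC.Poly.snd NPC.Poly.id))
        (NPC.Poly.const false)))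
      (NPC.Poly.snd (NPC.Poly.snd NPC.Poly.id))
  · intro a k _
    rw [Polynomial.eval_C]
    exact sz_bool_le _

theorem resid_poly {p v : α → ℕ} {x : α → List Bool} (hp : NPC.Poly p) (hv : NPC.Poly v) (hx : NPC.Poly x)
    (h0 : ∀ a, 0 < p a) : NPC.Poly (fun a => resid (p a) (x a) (v a)) := by
  obtain ⟨r, hr⟩ := hp.sz_le
  unfold resid
  refine NPC.Poly.foldr (l := x) (s := fun _ => 0)
    (F := fun a b acc => (b.toNat + v a * acc) % p a) hx (NPC.Poly.const 0) ?_
    (Polynomial.C 2 * r) ?_
  · have hb : NPC.Poly (fun q : α × Bool × ℕ => q.2.1.toNat) :=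
      (NPC.Poly.cond (NPC.Poly.fst (NPC.Poly.snd NPC.Poly.id)) (NPC.Poly.const 1) (NPC.Poly.const 0)).congr fun q => by
        cases q.2.1 <;> rfl
    exact NPC.Poly.mod (NPC.Poly.add hb (NPC.Poly.mul (hv.comp (NPC.Poly.fst NPC.Poly.id))
      (NPC.Poly.snd (NPC.Poly.snd NPC.Poly.id)))) (hp.comp (NPC.Poly.fst NPC.Poly.id))
  · intro a k _
    have hlt : ∀ l : List Bool,
        l.foldr (fun b acc => (b.toNat + v a * acc) % p a) 0 ≤ p a := by
      intro l
      cases l with
      | nil => simp
      | cons b l => rw [List.foldr_cons]; exact (Nat.mod_lt _ (h0 a)).le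
    have h1 := sz_nat_mono_le (hlt ((x a).drop k))
    have h2 := hr a
    simp only [Polynomial.eval_mul, Polynomial.eval_C]
    omega

theorem PCO_proof (h1 : S_PRM) (h2 : S_PPA) : S_PCO := by
  intro α _ g x z hg hx hz
  obtain ⟨hbq, -, hpr, -⟩ := h2 g hg
  have hb : NPC.Poly (fun a => bq (g a)) := hbq.1.toPoly
  have hp : NPC.Poly (fun a => pr (g a)) := hpr.toPoly
  have hpos : ∀ a, 0 < pr (g a) := by
    intro a
    have h : 2 ≤ 2 ^ bq (g a) := by
      calc 2 = 2 ^ 1 := rfl
        _ ≤ 2 ^ bq (g a) := Nat.pow_le_pow_right (by norm_num) (by unfold bq; omega)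
    exact (h1 _ h).1.pos
  unfold code
  exact dot_poly (resid_poly hp (NPC.Poly.valBits (take_poly hz hb)) hx hpos) (drop_poly hz hb)

end Pool.Agent.H654R5.PT.PCO
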